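import Mathlib

set_option autoImplicit false

namespace H28.Gal

open Finset

variable {R : Type*} [Fintype R] [DecidableEq R]

/-- the correlation sums over all permutations -/
noncomputable def corr (l : R → ℝ) (r s : R) : ℝ := ∑ τ : Equiv.Perm R, l (τ r) * l (τ s)

theorem corr_perm (l : R → ℝ) (π : Equiv.Perm R) (r s : R) :
    corr l (π r) (π s) = corr l r s := by
  unfold corr
  exact Fintype.sum_equiv (Equiv.mulRight π) _ _ (fun τ => by simp [Equiv.Perm.mul_apply])

theorem corr_diag (l : R → ℝ) (r s : R) : corr l r r = corr l s s := by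
  have := corr_perm l (Equiv.swap r s) r r
  rw [Equiv.swap_apply_left] at this
  exact this.symm

theorem corr_off (l : R → ℝ) (r s s' : R) (h : r ≠ s) (h' : r ≠ s') :
    corr l r s = corr l r s' := by
  have := corr_perm l (Equiv.swap s s') r s
  rw [Equiv.swap_apply_left, Equiv.swap_apply_of_ne_of_ne h h'] at this
  exact this.symm

theorem corr_sum (l : R → ℝ) (hl : ∑ r, l r = 0) (r : R) : ∑ s, corr l r s = 0 := by
  unfold corr
  rw [Finset.sum_comm]
  apply Finset.sum_eq_zero
  intro τ _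
  rw [← Finset.mul_sum]
  have : ∑ i, l (τ i) = ∑ i, l i := Fintype.sum_equiv τ _ _ (fun _ => rfl)
  rw [this, hl, mul_zero]

theorem corr_off_val (l : R → ℝ) (hl : ∑ r, l r = 0) (r s : R) (h : r ≠ s) :
    ((Fintype.card R : ℝ) - 1) * corr l r s = - corr l r r := by
  have h1 := corr_sum l hl r
  rw [← Finset.add_sum_erase _ _ (Finset.mem_univ r)] at h1
  have h2 : ∑ x ∈ Finset.univ.erase r, corr l r x = ∑ x ∈ Finset.univ.erase r, corr l r s := by
    apply Finset.sum_congr rfl
    intro x hx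
    exact corr_off l r x s (Finset.ne_of_mem_erase hx).symm h
  rw [h2, Finset.sum_const, Finset.card_erase_of_mem (Finset.mem_univ r), Finset.card_univ,
    nsmul_eq_mul, Nat.cast_sub (by
      have : 0 < Fintype.card R := Fintype.card_pos_iff.mpr ⟨r⟩
      omega)] at h1
  push_cast at h1
  linarith

theorem corr_diag_val (l : R → ℝ) (r : R) :
    (Fintype.card R : ℝ) * corr l r r = (Fintype.card (Equiv.Perm R) : ℝ) * ∑ s, l s ^ 2 := by
  have h1 : ∑ s, corr l s s = (Fintype.card R : ℝ) * corr l r r := by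
    rw [Finset.sum_congr rfl (fun s _ => corr_diag l s r), Finset.sum_const, Finset.card_univ,
      nsmul_eq_mul]
  rw [← h1]
  unfold corr
  rw [Finset.sum_comm]
  have : ∀ τ : Equiv.Perm R, ∑ s, l (τ s) * l (τ s) = ∑ s, l s ^ 2 := by
    intro τ
    exact Fintype.sum_equiv τ _ _ (fun s => by ring)
  rw [Finset.sum_congr rfl (fun τ _ => this τ), Finset.sum_const, Finset.card_univ, nsmul_eq_mul]

theorem second_moment (l a : R → ℝ) (hl : ∑ r, l r = 0) (hn : 2 ≤ Fintype.card R) :
    ((Fintype.card R : ℝ) - 1) * ∑ τ : Equiv.Perm R, (∑ r, a r * l (τ r)) ^ 2 ≤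
      (Fintype.card (Equiv.Perm R) : ℝ) * ((∑ r, l r ^ 2) * (∑ r, a r ^ 2)) := by
  have hne : Nonempty R := Fintype.card_pos_iff.mp (by omega)
  obtain ⟨r0⟩ := hne
  have hN : (0 : ℝ) < Fintype.card R := by
    have : 0 < Fintype.card R := by omega
    exact_mod_cast this
  have hN1 : (0 : ℝ) < (Fintype.card R : ℝ) - 1 := by
    have : (2 : ℝ) ≤ Fintype.card R := by exact_mod_cast hn
    linarith
  set N : ℝ := (Fintype.card R : ℝ) with hNdef
  have hexp : ∑ τ : Equiv.Perm R, (∑ r, a r * l (τ r)) ^ 2 = ∑ r, ∑ s, a r * a s * corr l r s := by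
    have : ∀ τ : Equiv.Perm R, (∑ r, a r * l (τ r)) ^ 2 =
        ∑ r, ∑ s, a r * a s * (l (τ r) * l (τ s)) := by
      intro τ
      rw [sq, Finset.sum_mul_sum]
      apply Finset.sum_congr rfl
      intro r _
      apply Finset.sum_congr rfl
      intro s _
      ring
    rw [Finset.sum_congr rfl (fun τ _ => this τ), Finset.sum_comm]
    apply Finset.sum_congr rfl
    intro r _
    rw [Finset.sum_comm]
    apply Finset.sum_congr rfl
    intro s _
    unfold corr
    rw [Finset.mul_sum]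
  set D := corr l r0 r0 with hD
  have hcorr : ∀ r s, (N - 1) * corr l r s = (if r = s then N * D else 0) - D := by
    intro r s
    by_cases h : r = s
    · subst h
      rw [if_pos rfl, corr_diag l r r0]
      ring
    · rw [if_neg h, corr_off_val l hl r s h, corr_diag l r r0]
      ring
  rw [hexp, Finset.mul_sum]
  have h3 : ∀ r, (N - 1) * ∑ s, a r * a s * corr l r s = N * D * a r ^ 2 - D * a r * ∑ s, a s := by
    intro r
    rw [Finset.mul_sum]
    have : ∀ s, (N - 1) * (a r * a s * corr l r s) =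
        (if r = s then a r * a s * (N * D) else 0) - D * a r * a s := by
      intro s
      have := hcorr r s
      calc (N - 1) * (a r * a s * corr l r s) = a r * a s * ((N - 1) * corr l r s) := by ring
        _ = _ := by
          rw [this]
          split_ifs <;> ring
    rw [Finset.sum_congr rfl (fun s _ => this s), Finset.sum_sub_distrib, Finset.sum_ite_eq,
      if_pos (Finset.mem_univ r), ← Finset.mul_sum]
    ring
  rw [Finset.sum_congr rfl (fun r _ => h3 r), Finset.sum_sub_distrib, ← Finset.mul_sum,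
    ← Finset.sum_mul, ← Finset.mul_sum]
  have hDN : N * D = (Fintype.card (Equiv.Perm R) : ℝ) * ∑ s, l s ^ 2 := corr_diag_val l r0
  have hD0 : 0 ≤ D := by
    rw [hD]; unfold corr
    exact Finset.sum_nonneg (fun τ _ => mul_self_nonneg _)
  have hsq : 0 ≤ D * (∑ i, a i) * ∑ i, a i := by
    rw [mul_assoc]
    exact mul_nonneg hD0 (mul_self_nonneg _)
  rw [hDN]
  nlinarith [hsq]

/-- first moment bound -/
theorem first_moment (l a : R → ℝ) (hl : ∑ r, l r = 0) (hn : 2 ≤ Fintype.card R) (δ : ℝ)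
    (hδ0 : 0 ≤ δ)
    (hδ : (∑ r, l r ^ 2) * (∑ r, a r ^ 2) ≤ δ ^ 2 * ((Fintype.card R : ℝ) - 1)) :
    ∑ τ : Equiv.Perm R, |∑ r, a r * l (τ r)| ≤ (Fintype.card (Equiv.Perm R) : ℝ) * δ := by
  have hN1 : (0 : ℝ) < (Fintype.card R : ℝ) - 1 := by
    have : (2 : ℝ) ≤ Fintype.card R := by exact_mod_cast hn
    linarith
  have h1 := second_moment l a hl hn
  set P : ℝ := (Fintype.card (Equiv.Perm R) : ℝ) with hP
  have hP0 : 0 ≤ P := by positivity
  have h2 : ∑ τ : Equiv.Perm R, (∑ r, a r * l (τ r)) ^ 2 ≤ P * δ ^ 2 := by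
    have : ((Fintype.card R : ℝ) - 1) * ∑ τ : Equiv.Perm R, (∑ r, a r * l (τ r)) ^ 2 ≤
        ((Fintype.card R : ℝ) - 1) * (P * δ ^ 2) := by
      calc _ ≤ P * ((∑ r, l r ^ 2) * (∑ r, a r ^ 2)) := h1
        _ ≤ P * (δ ^ 2 * ((Fintype.card R : ℝ) - 1)) := mul_le_mul_of_nonneg_left hδ hP0
        _ = _ := by ring
    exact le_of_mul_le_mul_left this hN1
  have h3 : (∑ τ : Equiv.Perm R, |∑ r, a r * l (τ r)|) ^ 2 ≤
      P * ∑ τ : Equiv.Perm R, |∑ r, a r * l (τ r)| ^ 2 := by
    have := sq_sum_le_card_mul_sum_sq (s := (Finset.univ : Finset (Equiv.Perm R)))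
      (f := fun τ => |∑ r, a r * l (τ r)|)
    rw [Finset.card_univ] at this
    exact this
  simp only [sq_abs] at h3
  have h4 : (∑ τ : Equiv.Perm R, |∑ r, a r * l (τ r)|) ^ 2 ≤ (P * δ) ^ 2 := by
    calc _ ≤ P * ∑ τ : Equiv.Perm R, (∑ r, a r * l (τ r)) ^ 2 := h3
      _ ≤ P * (P * δ ^ 2) := mul_le_mul_of_nonneg_left h2 hP0
      _ = _ := by ring
  exact le_of_sq_le_sq h4 (by positivity) |> fun h => h

end H28.Gal
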