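import Mathlib

set_option autoImplicit false

namespace H28.Gal

open Polynomial

/-- integral Selmer polynomial -/
noncomputable def selZ (n : ℕ) : ℤ[X] := X ^ n - X - 1

/-- number of distinct roots of a split Selmer polynomial over a field -/
theorem selmer_card_roots {k : Type*} [CommRing k] [IsDomain k] [Algebra ℤ k] (n : ℕ) (hn : 3 ≤ n)
    (hs : ((selZ n).map (algebraMap ℤ k)).Splits) :
    n ≤ ((selZ n).rootSet k).ncard + 1 := by
  classical
  set f : k[X] := (selZ n).map (algebraMap ℤ k) with hf
  have hfe : f = X ^ n - (X + 1) := by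
    rw [hf, selZ]
    simp only [Polynomial.map_sub, Polynomial.map_pow, Polynomial.map_X, Polynomial.map_one]
    ring
  have hdX : (X + 1 : k[X]).degree < (n : ℕ) := by
    have : (X + 1 : k[X]).degree = 1 := by
      have := Polynomial.degree_X_add_C (1 : k)
      simpa using this
    rw [this]
    exact_mod_cast (by omega : 1 < n)
  have hmon : f.Monic := by
    rw [hfe]
    exact Polynomial.monic_X_pow_sub (by
      have : (X + 1 : k[X]).degree = 1 := by
        have := Polynomial.degree_X_add_C (1 : k)
        simpa using this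
      rw [this]
      exact_mod_cast (by omega : 1 < n))
  have hnat : f.natDegree = n := by
    rw [hfe]
    apply Polynomial.natDegree_eq_of_degree_eq_some
    rw [Polynomial.degree_sub_eq_left_of_degree_lt]
    · exact Polynomial.degree_X_pow n
    · rw [Polynomial.degree_X_pow]; exact hdX
  have hcard : f.roots.card = n := by
    rw [← hnat]; exact hs.natDegree_eq_card_roots.symm
  have hev : ∀ x : k, f.eval x = x ^ n - x - 1 := by
    intro x; rw [hfe]; simp; ring
  have hder : ∀ x : k, f.derivative.eval x = n * x ^ (n - 1) - 1 := by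
    intro x
    rw [hfe]
    simp [Polynomial.derivative_X_pow]
  have hder2 : ∀ x : k, f.derivative.derivative.eval x = n * ((n - 1 : ℕ) * x ^ (n - 1 - 1)) := by
    intro x
    rw [hfe]
    simp [Polynomial.derivative_X_pow]
  -- structure of a double root
  have hdouble : ∀ x : k, f.eval x = 0 → f.derivative.eval x = 0 →
      ((n : k) - 1) ≠ 0 ∧ x * ((n : k) - 1) = -(n : k) ∧ (n : k) ≠ 0 ∧ x ≠ 0 := by
    intro x h1 h2
    rw [hev] at h1
    rw [hder] at h2
    have h3 : (n : k) * x ^ (n - 1) = 1 := by linear_combination h2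
    have h4 : x ^ n = x ^ (n - 1) * x := by
      rw [← pow_succ]; congr 1; omega
    have h5 : x * ((n : k) - 1) = -(n : k) := by
      rw [h4] at h1
      linear_combination (-(n : k)) * h1 + x * h3
    have hn0 : (n : k) ≠ 0 := by
      intro h
      rw [h, zero_mul] at h3
      exact zero_ne_one h3
    have hx0 : x ≠ 0 := by
      rintro rfl
      rw [zero_pow (by omega), mul_zero] at h3
      exact zero_ne_one h3
    refine ⟨?_, h5, hn0, hx0⟩
    intro h
    rw [h, mul_zero] at h5
    exact hn0 (neg_eq_zero.mp h5.symm)
  have hmult : ∀ x : k, f.rootMultiplicity x ≤ 2 := by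
    intro x
    by_contra hgt
    push Not at hgt
    have h0 := Polynomial.isRoot_iterate_derivative_of_lt_rootMultiplicity (p := f) (t := x) (n := 0) (by omega)
    have h1 := Polynomial.isRoot_iterate_derivative_of_lt_rootMultiplicity (p := f) (t := x) (n := 1) (by omega)
    have h2 := Polynomial.isRoot_iterate_derivative_of_lt_rootMultiplicity (p := f) (t := x) (n := 2) (by omega)
    simp only [Function.iterate_zero, Function.iterate_succ, Function.comp, id,
      Polynomial.IsRoot.def] at h0 h1 h2
    obtain ⟨ha, hb, hc, hd⟩ := hdouble x h0 h1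
    rw [hder2, Nat.cast_sub (by omega), Nat.cast_one] at h2
    exact (mul_ne_zero hc (mul_ne_zero ha (pow_ne_zero _ hd))) h2
  have huniq : ∀ x y : k, 1 < f.rootMultiplicity x → 1 < f.rootMultiplicity y → x = y := by
    intro x y hx hy
    rw [Polynomial.one_lt_rootMultiplicity_iff_isRoot hmon.ne_zero] at hx hy
    obtain ⟨ha, hb, _, _⟩ := hdouble x hx.1 hx.2
    obtain ⟨_, hb', _, _⟩ := hdouble y hy.1 hy.2
    exact mul_right_cancel₀ ha (hb.trans hb'.symm)
  have hset : (selZ n).rootSet k = (f.roots.toFinset : Set k) := by
    rw [Polynomial.rootSet_def, Polynomial.aroots_def]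
  rw [hset, Set.ncard_coe_finset]
  have h1 : f.roots.card = ∑ x ∈ f.roots.toFinset, f.roots.count x :=
    (Multiset.toFinset_sum_count_eq f.roots).symm
  rw [hcard] at h1
  by_cases hex : ∃ x0, 1 < f.rootMultiplicity x0
  · obtain ⟨x0, hx0⟩ := hex
    have h2 : ∀ x ∈ f.roots.toFinset, f.roots.count x ≤ 1 + if x = x0 then 1 else 0 := by
      intro x _
      rw [Polynomial.count_roots]
      split_ifs with h
      · exact hmult x
      · by_contra hlt
        push Not at hlt
        exact h (huniq x x0 (by omega) hx0)
    have h3 := Finset.sum_le_sum h2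
    rw [← h1, Finset.sum_add_distrib, Finset.sum_ite_eq'] at h3
    simp only [Finset.sum_const, smul_eq_mul, mul_one] at h3
    split_ifs at h3 <;> omega
  · push Not at hex
    have h3 : ∑ x ∈ f.roots.toFinset, f.roots.count x ≤ ∑ x ∈ f.roots.toFinset, 1 :=
      Finset.sum_le_sum (fun x _ => by rw [Polynomial.count_roots]; exact hex x)
    rw [← h1] at h3
    simp only [Finset.sum_const, smul_eq_mul, mul_one] at h3
    omega

end H28.Gal
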