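import Pool.Agent.H28.Gal.Field

set_option autoImplicit false

namespace H28.Gal

open Finset Polynomial Real

variable {L : Type*} [Field L] [Algebra ℚ L] [FiniteDimensional ℚ L] [IsGalois ℚ L]
variable (ι : L →ₐ[ℚ] ℂ)
variable {R : Type*} [Fintype R] [DecidableEq R] (β : R → L)
variable (ρ : (L ≃ₐ[ℚ] L) ≃* Equiv.Perm R)

/-- product of powers -/
noncomputable def U (a : R → ℕ) : L := ∏ r, β r ^ a r

omit [FiniteDimensional ℚ L] [IsGalois ℚ L] [DecidableEq R] in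
theorem log_norm_U (hρ : ∀ g r, g (β r) = β (ρ g r)) (hβ : ∀ r, β r ≠ 0) (a : R → ℕ)
    (g : L ≃ₐ[ℚ] L) :
    Real.log ‖ι (g (U β a))‖ = ∑ r, (a r : ℝ) * Real.log ‖ι (β (ρ g r))‖ := by
  unfold U
  rw [map_prod, map_prod, norm_prod, Real.log_prod]
  · apply Finset.sum_congr rfl
    intro r _
    rw [map_pow, map_pow, norm_pow, Real.log_pow, hρ]
  · intro r _
    simpa using fun h => absurd h (hβ r)

omit [FiniteDimensional ℚ L] [IsGalois ℚ L] [DecidableEq R] in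
theorem U_ne (hβ : ∀ r, β r ≠ 0) (a : R → ℕ) : U β a ≠ 0 :=
  Finset.prod_ne_zero_iff.mpr (fun r _ => pow_ne_zero _ (hβ r))

omit [FiniteDimensional ℚ L] [IsGalois ℚ L] [DecidableEq R] in
theorem U_int (hβ : ∀ r, IsIntegral ℤ (β r)) (a : R → ℕ) : IsIntegral ℤ (U β a) :=
  IsIntegral.prod _ (fun r _ => (hβ r).pow _)

structure Data (m : ℕ) : Prop where
  hρ : ∀ g r, g (β r) = β (ρ g r)
  hβ : ∀ r, β r ≠ 0
  hint : ∀ r, IsIntegral ℤ (β r)
  hl : ∑ r, Real.log ‖ι (β r)‖ = 0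
  h1 : ∀ r, ((Fintype.card R : ℝ) - 1) * (Real.log ‖ι (β r)‖) ^ 2 ≤ 1
  h2 : ∀ r, ((Fintype.card R : ℝ) - 1) * Real.log ‖ι (β r)‖ ≤ Real.log 2
  hne : ∃ p q, Real.log ‖ι (β p)‖ ≠ Real.log ‖ι (β q)‖
  hm : 1200 ≤ m
  hR : m ^ 6 ≤ 2 * Fintype.card R

variable {ι β ρ} {m : ℕ}

omit [IsGalois ℚ L] in
theorem size_U (D : Data ι β ρ m) (a : R → ℕ) (ha : ∀ r, a r ≤ m) :
    size ι (U β a) ≤ (Fintype.card (L ≃ₐ[ℚ] L) : ℝ) * (1 / 10) := by
  have hn : 2 ≤ Fintype.card R := by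
    have h1 : 4 ≤ m ^ 6 := by
      calc 4 ≤ 1200 ^ 6 := by norm_num
        _ ≤ m ^ 6 := Nat.pow_le_pow_left D.hm 6
    have h2 := D.hR
    omega
  have h := first_moment (fun r => Real.log ‖ι (β r)‖) (fun r => (a r : ℝ)) D.hl hn (1 / 10)
    (by norm_num) (moment_cond _ _ D.hl m D.hm D.hR D.h1 D.h2 (fun r => by positivity)
      (fun r => by exact_mod_cast ha r))
  have hcard : Fintype.card (L ≃ₐ[ℚ] L) = Fintype.card (Equiv.Perm R) :=
    Fintype.card_congr ρ.toEquiv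
  rw [hcard]
  refine le_trans ?_ h
  unfold size
  rw [← Fintype.sum_equiv ρ.toEquiv (fun g => |∑ r, (a r : ℝ) * Real.log ‖ι (β (ρ g r))‖|) _
    (fun g => rfl)]
  apply Finset.sum_le_sum
  intro g _
  rw [posLog_apply, log_norm_U ι β ρ D.hρ D.hβ]
  exact max_le (abs_nonneg _) (le_abs_self _)

omit [FiniteDimensional ℚ L] [IsGalois ℚ L] in
theorem stab_U (D : Data ι β ρ m) (a : R → ℕ) (σ : L ≃ₐ[ℚ] L) (h : σ (U β a) = U β a) (r : R) :
    a (ρ σ r) = a r := by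
  set w := ρ σ with hw
  have key : ∀ r, (a (w.symm r) : ℝ) - a r = 0 := by
    apply coeff_zero (fun r => Real.log ‖ι (β r)‖) (fun r => (a (w.symm r) : ℝ) - a r)
    · rw [Finset.sum_sub_distrib, sub_eq_zero]
      exact Fintype.sum_equiv w.symm _ _ (fun r => rfl)
    · intro τ
      obtain ⟨g, rfl⟩ := ρ.surjective τ
      have h1 := log_norm_U ι β ρ D.hρ D.hβ a (g * σ)
      have h2 := log_norm_U ι β ρ D.hρ D.hβ a g
      have h3 : (g * σ) (U β a) = g (U β a) := by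
        rw [AlgEquiv.mul_apply, h]
      rw [h3, h2] at h1
      simp only [sub_mul, Finset.sum_sub_distrib]
      rw [sub_eq_zero, h1]
      have h4 : ∑ x, (a (w.symm x) : ℝ) * Real.log ‖ι (β ((ρ g) x))‖ =
          ∑ x, (a x : ℝ) * Real.log ‖ι (β ((ρ (g * σ)) x))‖ := by
        refine Fintype.sum_equiv w.symm _ _ (fun x => ?_)
        rw [map_mul, Equiv.Perm.mul_apply, ← hw, Equiv.apply_symm_apply]
      exact h4
    · exact D.hne
  have h5 := key (w r)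
  rw [Equiv.symm_apply_apply] at h5
  have h6 : (a (w r) : ℝ) = a r := by linarith
  exact_mod_cast h6

/-- the element -/
noncomputable def elt (β : R → L) (a : ℕ → R → ℕ) : L :=
  ∑ t ∈ Finset.range 6, 3 ^ t * U β (a t)

theorem stab_elt (D : Data ι β ρ m) (a : ℕ → R → ℕ) (ha : ∀ t r, a t r ≤ m)
    (hinj : ∀ r s, (∀ t < 6, a t r = a t s) → r = s) (σ : L ≃ₐ[ℚ] L)
    (h : σ (elt β a) = elt β a) : σ = 1 := by
  have h0 : ∑ t ∈ Finset.range 6, (3 : L) ^ t * (σ (U β (a t)) - U β (a t)) = 0 := by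
    have : σ (elt β a) - elt β a = 0 := sub_eq_zero.mpr h
    unfold elt at this
    rw [map_sum, ← Finset.sum_sub_distrib] at this
    rw [← this]
    apply Finset.sum_congr rfl
    intro t _
    rw [map_mul, map_pow, map_ofNat σ 3]
    ring
  have hall := all_zero 6 (fun t => σ (U β (a t)) - U β (a t))
    (fun t => by
      have h1 := U_int β D.hint (a t)
      exact (h1.map (σ : L →ₐ[ℚ] L)).sub h1)
    (fun t γ hγ hx => diff_zero ι _ (size_U D (a t) (ha t)) σ γ hγ hx) h0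
  have hfix : ∀ r, ρ σ r = r := by
    intro r
    apply hinj
    intro t ht
    exact stab_U D (a t) σ (sub_eq_zero.mp (hall t ht)) r
  have : ρ σ = 1 := by
    ext r
    simp [hfix r]
  exact ρ.injective (by rw [this, map_one])

omit [IsGalois ℚ L] in
theorem size_elt (D : Data ι β ρ m) (a : ℕ → R → ℕ) (ha : ∀ t r, a t r ≤ m) :
    size ι (elt β a) ≤ (Fintype.card (L ≃ₐ[ℚ] L) : ℝ) * (Real.log 6 + 15 * Real.log 3 + 1) := by
  have h1 : ∀ g : (L ≃ₐ[ℚ] L), log⁺ ‖ι (g (elt β a))‖ ≤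
      (Real.log 6 + 15 * Real.log 3) + ∑ t ∈ Finset.range 6, log⁺ ‖ι (g (U β (a t)))‖ := by
    intro g
    have h2 : ι (g (elt β a)) = ∑ t ∈ Finset.range 6, 3 ^ t * ι (g (U β (a t))) := by
      unfold elt
      rw [map_sum, map_sum]
      apply Finset.sum_congr rfl
      intro t _
      rw [map_mul, map_pow, map_ofNat g 3, map_mul, map_pow, map_ofNat ι 3]
    rw [h2]
    refine (posLog_norm_sum_le _ _).trans ?_
    rw [Finset.card_range]
    have h3 : ∀ t ∈ Finset.range 6, log⁺ ‖(3 : ℂ) ^ t * ι (g (U β (a t)))‖ ≤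
        (t : ℝ) * Real.log 3 + log⁺ ‖ι (g (U β (a t)))‖ := by
      intro t _
      rw [norm_mul, norm_pow]
      refine posLog_mul.trans ?_
      rw [posLog_pow]
      have : log⁺ ‖(3 : ℂ)‖ = Real.log 3 := by
        rw [show ‖(3 : ℂ)‖ = 3 by norm_num]
        exact posLog_eq_log (by norm_num)
      rw [this]
    have h4 := Finset.sum_le_sum h3
    rw [Finset.sum_add_distrib, ← Finset.sum_mul] at h4
    have h5 : ∑ t ∈ Finset.range 6, (t : ℝ) = 15 := by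
      simp [Finset.sum_range_succ]; norm_num
    rw [h5] at h4
    push_cast
    linarith
  have h2 := Finset.sum_le_sum (fun g (_ : g ∈ (Finset.univ : Finset (L ≃ₐ[ℚ] L))) => h1 g)
  rw [Finset.sum_add_distrib, Finset.sum_const, Finset.card_univ, nsmul_eq_mul,
    Finset.sum_comm] at h2
  have h3 : ∑ t ∈ Finset.range 6, ∑ g : (L ≃ₐ[ℚ] L), log⁺ ‖ι (g (U β (a t)))‖ ≤
      ∑ t ∈ Finset.range 6, (Fintype.card (L ≃ₐ[ℚ] L) : ℝ) * (1 / 10) :=
    Finset.sum_le_sum (fun t _ => size_U D (a t) (ha t))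
  rw [Finset.sum_const, Finset.card_range, nsmul_eq_mul] at h3
  have h4 : size ι (elt β a) = ∑ g : (L ≃ₐ[ℚ] L), log⁺ ‖ι (g (elt β a))‖ := rfl
  rw [h4]
  have hC : (0 : ℝ) ≤ Fintype.card (L ≃ₐ[ℚ] L) := by positivity
  push_cast at h3
  nlinarith

end H28.Gal
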