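import Mathlib

set_option autoImplicit false

namespace H28.Gal

open Finset Polynomial

theorem root_log_le (n : ℕ) (hn : 2 ≤ n) (z : ℂ) (hz : z ^ n = z + 1) :
    ((n : ℝ) - 1) * Real.log ‖z‖ ≤ Real.log 2 := by
  have hn1 : (0 : ℝ) < (n : ℝ) - 1 := by
    have : (2 : ℝ) ≤ n := by exact_mod_cast hn
    linarith
  rcases le_or_gt ‖z‖ 1 with h | h
  · have : Real.log ‖z‖ ≤ 0 := Real.log_nonpos (norm_nonneg _) h
    have h2 : 0 ≤ Real.log 2 := Real.log_nonneg (by norm_num)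
    nlinarith
  · have h1 : ‖z‖ ^ n ≤ 2 * ‖z‖ := by
      rw [← norm_pow, hz]
      calc ‖z + 1‖ ≤ ‖z‖ + ‖(1 : ℂ)‖ := norm_add_le _ _
        _ ≤ 2 * ‖z‖ := by rw [norm_one]; linarith
    have hpos : 0 < ‖z‖ := by linarith
    have h2 := Real.log_le_log (by positivity) h1
    rw [Real.log_pow, Real.log_mul (by norm_num) hpos.ne'] at h2
    linarith

theorem root_log_sq (n : ℕ) (hn : 2 ≤ n) (z : ℂ) (hz : z ^ n = z + 1) :
    ((n : ℝ) - 1) * (Real.log ‖z‖) ^ 2 ≤ 1 := by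
  have hn1 : (1 : ℝ) ≤ (n : ℝ) - 1 := by
    have : (2 : ℝ) ≤ n := by exact_mod_cast hn
    linarith
  rcases le_or_gt 0 (Real.log ‖z‖) with h | h
  · have h1 := root_log_le n hn z hz
    have h2 : Real.log 2 ≤ 1 := by
      have := Real.log_two_lt_d9
      linarith
    have h3 : ((n : ℝ) - 1) * Real.log ‖z‖ ≤ 1 := h1.trans h2
    have h4 : Real.log ‖z‖ ≤ 1 := by nlinarith
    nlinarith
  · have hz0 : z ≠ 0 := by
      rintro rfl
      simp at h
    have hpos : 0 < ‖z‖ := norm_pos_iff.mpr hz0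
    set y := - Real.log ‖z‖ with hy
    have hy0 : 0 < y := by linarith
    have hze : ‖z‖ = Real.exp (-y) := by rw [hy, neg_neg, Real.exp_log hpos]
    have h1 : 1 - ‖z‖ ≤ ‖z‖ ^ n := by
      rw [← norm_pow, hz]
      have := norm_sub_norm_le (1 : ℂ) (-z)
      rw [norm_one, norm_neg, sub_neg_eq_add, add_comm] at this
      linarith
    -- multiply by exp y : e^y - 1 ≤ e^{-(n-1) y}
    have h2 : Real.exp y - 1 ≤ Real.exp (-(((n : ℝ) - 1) * y)) := by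
      have h3 := mul_le_mul_of_nonneg_left h1 (Real.exp_pos y).le
      rw [hze, ← Real.exp_nat_mul, mul_sub, mul_one, ← Real.exp_add, ← Real.exp_add,
        add_neg_cancel, Real.exp_zero] at h3
      have h4 : y + (n : ℝ) * -y = -(((n : ℝ) - 1) * y) := by ring
      rwa [h4] at h3
    have h5 : y ≤ Real.exp y - 1 := by
      have := Real.add_one_le_exp y
      linarith
    have h6 : y * (1 + ((n : ℝ) - 1) * y) ≤ 1 := by
      have h7 : 1 + ((n : ℝ) - 1) * y ≤ Real.exp (((n : ℝ) - 1) * y) := by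
        have := Real.add_one_le_exp (((n : ℝ) - 1) * y)
        linarith
      have h8 : y ≤ Real.exp (-(((n : ℝ) - 1) * y)) := h5.trans h2
      calc y * (1 + ((n : ℝ) - 1) * y) ≤ Real.exp (-(((n : ℝ) - 1) * y)) *
            Real.exp (((n : ℝ) - 1) * y) := by
              apply mul_le_mul h8 h7 _ (Real.exp_pos _).le
              nlinarith
        _ = 1 := by rw [← Real.exp_add]; simp
    have h9 : (Real.log ‖z‖) ^ 2 = y ^ 2 := by rw [hy]; ring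
    rw [h9]
    nlinarith

theorem exists_real_root (n : ℕ) (hn : 2 ≤ n) : ∃ x : ℝ, 1 < x ∧ x ^ n = x + 1 := by
  have hc : ContinuousOn (fun x : ℝ => x ^ n - x - 1) (Set.Icc 1 2) := by fun_prop
  have h1 := intermediate_value_Icc (by norm_num : (1 : ℝ) ≤ 2) hc
  have h2 : (0 : ℝ) ∈ Set.Icc ((1 : ℝ) ^ n - 1 - 1) ((2 : ℝ) ^ n - 2 - 1) := by
    constructor
    · norm_num
    · have : (2 : ℝ) ^ 2 ≤ 2 ^ n := pow_le_pow_right₀ (by norm_num) hn
      linarith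
  obtain ⟨x, hx, hx0⟩ := h1 h2
  refine ⟨x, ?_, ?_⟩
  · rcases eq_or_lt_of_le hx.1 with h | h
    · subst h
      norm_num at hx0
    · exact h
  · simp only at hx0
    linarith

/-- abstract bound for the square sum -/
theorem sq_sum_le {R : Type*} [Fintype R] (l : R → ℝ) (hl : ∑ r, l r = 0) (hn : 2 ≤ Fintype.card R)
    (s : ℝ) (hs0 : 0 < s) (hs : s ^ 2 = (Fintype.card R : ℝ) - 1)
    (h1 : ∀ r, ((Fintype.card R : ℝ) - 1) * l r ^ 2 ≤ 1)
    (h2 : ∀ r, ((Fintype.card R : ℝ) - 1) * l r ≤ Real.log 2) :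
    s * ∑ r, l r ^ 2 ≤ 3 := by
  have hN : (2 : ℝ) ≤ Fintype.card R := by exact_mod_cast hn
  have habs : ∀ r, s * |l r| ≤ 1 := by
    intro r
    have := h1 r
    rw [← hs, ← sq_abs (l r), ← mul_pow] at this
    have h3 : 0 ≤ s * |l r| := by positivity
    nlinarith
  have hpos : ∀ r, s ^ 2 * |l r| ≤ 2 * Real.log 2 - s ^ 2 * l r := by
    intro r
    have := h2 r
    rw [← hs] at this
    have hlog : 0 ≤ Real.log 2 := Real.log_nonneg (by norm_num)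
    rcases abs_cases (l r) with ⟨h, _⟩ | ⟨h, _⟩
    · rw [h]; linarith
    · rw [h]; linarith
  have hsumabs : s ^ 2 * ∑ r, |l r| ≤ 2 * Real.log 2 * Fintype.card R := by
    rw [Finset.mul_sum]
    calc ∑ r, s ^ 2 * |l r| ≤ ∑ r, (2 * Real.log 2 - s ^ 2 * l r) := Finset.sum_le_sum (fun r _ => hpos r)
      _ = 2 * Real.log 2 * Fintype.card R := by
        rw [Finset.sum_sub_distrib, Finset.sum_const, Finset.card_univ, nsmul_eq_mul,
          ← Finset.mul_sum, hl]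
        ring
  have hsum2 : ∑ r, |l r| ≤ 3 := by
    have h3 : (Fintype.card R : ℝ) ≤ 2 * s ^ 2 := by rw [hs]; linarith
    have h4 : s ^ 2 * ∑ r, |l r| ≤ s ^ 2 * 3 := by
      have := Real.log_two_lt_d9
      nlinarith [hsumabs]
    exact le_of_mul_le_mul_left h4 (by positivity)
  have h5 : s * ∑ r, l r ^ 2 ≤ ∑ r, |l r| := by
    rw [Finset.mul_sum]
    apply Finset.sum_le_sum
    intro r _
    rw [← sq_abs (l r)]
    have := habs r
    nlinarith [abs_nonneg (l r)]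
  linarith

/-- the numeric inequality behind `first_moment` -/
theorem moment_cond {R : Type*} [Fintype R] (l a : R → ℝ) (hl : ∑ r, l r = 0) (m : ℕ)
    (hm : 1200 ≤ m) (hR : m ^ 6 ≤ 2 * Fintype.card R)
    (h1 : ∀ r, ((Fintype.card R : ℝ) - 1) * l r ^ 2 ≤ 1)
    (h2 : ∀ r, ((Fintype.card R : ℝ) - 1) * l r ≤ Real.log 2)
    (ha0 : ∀ r, 0 ≤ a r) (ha : ∀ r, a r ≤ m) :
    (∑ r, l r ^ 2) * (∑ r, a r ^ 2) ≤ (1 / 10) ^ 2 * ((Fintype.card R : ℝ) - 1) := by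
  have hmR : (1200 : ℝ) ≤ m := by exact_mod_cast hm
  have hN : (m : ℝ) ^ 6 ≤ 2 * (Fintype.card R : ℝ) := by exact_mod_cast hR
  have hm6 : (4 : ℝ) ≤ (m : ℝ) ^ 6 := by
    calc (4 : ℝ) ≤ 1200 ^ 6 := by norm_num
      _ ≤ (m : ℝ) ^ 6 := pow_le_pow_left₀ (by norm_num) hmR 6
  have hn : 2 ≤ Fintype.card R := by
    have : (2 : ℝ) ≤ (Fintype.card R : ℝ) := by linarith
    exact_mod_cast this
  have hpos : 0 < (Fintype.card R : ℝ) - 1 := by linarith
  set s := Real.sqrt ((Fintype.card R : ℝ) - 1) with hs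
  have hs0 : 0 < s := Real.sqrt_pos.mpr hpos
  have hs2 : s ^ 2 = (Fintype.card R : ℝ) - 1 := Real.sq_sqrt hpos.le
  have hl2 := sq_sum_le l hl hn s hs0 hs2 h1 h2
  have hsm : (m : ℝ) ^ 3 ≤ 2 * s := by
    have h3 : ((m : ℝ) ^ 3) ^ 2 ≤ (2 * s) ^ 2 := by
      rw [mul_pow, hs2]
      nlinarith
    exact abs_le_of_sq_le_sq' h3 (by positivity) |>.2
  have hsa : ∑ r, a r ^ 2 ≤ (Fintype.card R : ℝ) * (m : ℝ) ^ 2 := by
    calc ∑ r, a r ^ 2 ≤ ∑ r : R, (m : ℝ) ^ 2 :=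
          Finset.sum_le_sum (fun r _ => pow_le_pow_left₀ (ha0 r) (ha r) 2)
      _ = _ := by rw [Finset.sum_const, Finset.card_univ, nsmul_eq_mul]
  have hcard : (Fintype.card R : ℝ) ≤ 2 * s ^ 2 := by rw [hs2]; linarith
  have hL0 : 0 ≤ ∑ r, l r ^ 2 := Finset.sum_nonneg (fun r _ => sq_nonneg _)
  rw [← hs2]
  have h5 : (∑ r, l r ^ 2) * (∑ r, a r ^ 2) ≤ (∑ r, l r ^ 2) * (2 * s ^ 2 * (m : ℝ) ^ 2) := by
    apply mul_le_mul_of_nonneg_left _ hL0
    exact hsa.trans (mul_le_mul_of_nonneg_right hcard (by positivity))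
  have h6 : (∑ r, l r ^ 2) * (2 * s ^ 2 * (m : ℝ) ^ 2) = (s * ∑ r, l r ^ 2) * (2 * s * (m : ℝ) ^ 2) := by
    ring
  have h7 : (s * ∑ r, l r ^ 2) * (2 * s * (m : ℝ) ^ 2) ≤ 3 * (2 * s * (m : ℝ) ^ 2) :=
    mul_le_mul_of_nonneg_right hl2 (by positivity)
  have h8 : 6 * (m : ℝ) ^ 2 ≤ (1 / 10) ^ 2 * s := by
    have : 1200 * (m : ℝ) ^ 2 ≤ (m : ℝ) ^ 3 := by nlinarith [sq_nonneg (m : ℝ)]
    nlinarith
  nlinarith [mul_le_mul_of_nonneg_left h8 hs0.le]

end H28.Gal
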