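import Pool.Agent.H28.Gal.Avg
import Pool.Agent.H28.Gal.Roots

set_option autoImplicit false

namespace H28.Gal

open Finset Polynomial Real

section lin

variable {R : Type*} [Fintype R] [DecidableEq R]

theorem exists_perm_two (i j p q : R) (hij : i ≠ j) (hpq : p ≠ q) :
    ∃ τ : Equiv.Perm R, τ i = p ∧ τ j = q := by
  let σ : Equiv.Perm R := Equiv.swap i p
  have h1 : σ i = p := Equiv.swap_apply_left i p
  have h2 : σ j ≠ p := by
    rw [← h1]
    exact fun h => hij (σ.injective h).symm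
  refine ⟨Equiv.swap (σ j) q * σ, ?_, ?_⟩
  · rw [Equiv.Perm.mul_apply, h1]
    exact Equiv.swap_apply_of_ne_of_ne h2.symm hpq
  · rw [Equiv.Perm.mul_apply]
    exact Equiv.swap_apply_left _ _

theorem coeff_zero (l c : R → ℝ) (hc : ∑ r, c r = 0)
    (h : ∀ τ : Equiv.Perm R, ∑ r, c r * l (τ r) = 0) (hne : ∃ p q, l p ≠ l q) : ∀ r, c r = 0 := by
  obtain ⟨p, q, hpq⟩ := hne
  have hpq' : p ≠ q := fun e => hpq (by rw [e])
  have hconst : ∀ i j, c i = c j := by
    intro i j
    by_cases hij : i = j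
    · rw [hij]
    obtain ⟨τ, h1, h2⟩ := exists_perm_two i j p q hij hpq'
    have h3 := h τ
    have h4 := h (τ * Equiv.swap i j)
    have h5 : ∑ r, c r * (l (τ r) - l ((τ * Equiv.swap i j) r)) = 0 := by
      simp only [mul_sub, Finset.sum_sub_distrib]
      rw [h3, h4, sub_zero]
    have h6 : ∑ r, c r * (l (τ r) - l ((τ * Equiv.swap i j) r)) =
        ∑ r ∈ ({i, j} : Finset R), c r * (l (τ r) - l ((τ * Equiv.swap i j) r)) := by
      symm
      apply Finset.sum_subset (Finset.subset_univ _)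
      intro r _ hr
      simp only [Finset.mem_insert, Finset.mem_singleton, not_or] at hr
      rw [Equiv.Perm.mul_apply, Equiv.swap_apply_of_ne_of_ne hr.1 hr.2, sub_self, mul_zero]
    rw [h6, Finset.sum_pair hij, Equiv.Perm.mul_apply, Equiv.Perm.mul_apply,
      Equiv.swap_apply_left, Equiv.swap_apply_right, h1, h2] at h5
    have h7 : (c i - c j) * (l p - l q) = 0 := by linarith
    rcases mul_eq_zero.mp h7 with h8 | h8
    · linarith
    · exact absurd (sub_eq_zero.mp h8) hpq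
  intro r
  have h1 : ∑ s, c s = ∑ s : R, c r := Finset.sum_congr rfl (fun s _ => hconst s r)
  rw [h1, Finset.sum_const, Finset.card_univ, nsmul_eq_mul] at hc
  rcases mul_eq_zero.mp hc with h2 | h2
  · exfalso
    have : 0 < Fintype.card R := Fintype.card_pos_iff.mpr ⟨r⟩
    have h3 : (Fintype.card R : ℝ) ≠ 0 := by exact_mod_cast this.ne'
    exact h3 h2
  · exact h2

end lin

section field

variable {L : Type*} [Field L] [Algebra ℚ L] [FiniteDimensional ℚ L] [IsGalois ℚ L]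
variable (ι : L →ₐ[ℚ] ℂ)

/-- the average size of the conjugates of an element -/
noncomputable def size (u : L) : ℝ := ∑ g : (L ≃ₐ[ℚ] L), log⁺ ‖ι (g u)‖

theorem size_conj (u : L) (σ : L ≃ₐ[ℚ] L) : size ι (σ u) = size ι u := by
  unfold size
  exact Fintype.sum_equiv (Equiv.mulRight σ) _ _ (fun g => rfl)

theorem norm_ge (γ : L) (hγ : IsIntegral ℤ γ) (h0 : γ ≠ 0) :
    0 ≤ ∑ g : (L ≃ₐ[ℚ] L), Real.log ‖ι (g γ)‖ := by
  have h1 : algebraMap ℚ L (Algebra.norm ℚ γ) = ∏ σ : (L ≃ₐ[ℚ] L), σ γ :=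
    Algebra.norm_eq_prod_automorphisms ℚ γ
  have h2 : IsIntegral ℤ (Algebra.norm ℚ γ) := Algebra.isIntegral_norm ℚ hγ
  obtain ⟨z, hz⟩ := IsIntegrallyClosed.isIntegral_iff.mp h2
  have h3 : Algebra.norm ℚ γ ≠ 0 := Algebra.norm_ne_zero_iff.mpr h0
  have hz0 : z ≠ 0 := by
    rintro rfl
    rw [map_zero] at hz
    exact h3 hz.symm
  have h4 : (1 : ℝ) ≤ ‖ι (algebraMap ℚ L (Algebra.norm ℚ γ))‖ := by
    rw [← hz]
    have : ι (algebraMap ℚ L (algebraMap ℤ ℚ z)) = (z : ℂ) := by simp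
    rw [this, Complex.norm_intCast]
    exact_mod_cast Int.one_le_abs hz0
  rw [h1, map_prod, norm_prod] at h4
  have h5 := Real.log_nonneg h4
  rwa [Real.log_prod] at h5
  intro g _
  simpa using h0

theorem diff_zero (u : L)
    (hsize : size ι u ≤ (Fintype.card (L ≃ₐ[ℚ] L) : ℝ) * (1 / 10)) (σ : L ≃ₐ[ℚ] L) (γ : L)
    (hγ : IsIntegral ℤ γ) (h : σ u - u = 3 * γ) : σ u - u = 0 := by
  by_contra hne
  have hγ0 : γ ≠ 0 := by
    rintro rfl
    exact hne (by rw [h, mul_zero])
  have h1 := norm_ge ι γ hγ hγ0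
  have h2 : ∀ g : (L ≃ₐ[ℚ] L), Real.log ‖ι (g γ)‖ ≤
      (Real.log 2 - Real.log 3) + log⁺ ‖ι (g (σ u))‖ + log⁺ ‖ι (g u)‖ := by
    intro g
    have h3 : ι (g (σ u)) - ι (g u) = 3 * ι (g γ) := by
      rw [← map_sub, ← map_sub, h, map_mul, map_mul, map_ofNat g 3, map_ofNat ι 3]
    have h4 : Real.log ‖ι (g (σ u)) - ι (g u)‖ = Real.log 3 + Real.log ‖ι (g γ)‖ := by
      rw [h3, norm_mul, Real.log_mul]
      · norm_num
      · norm_num
      · simpa using hγ0
    have h5 : Real.log ‖ι (g (σ u)) - ι (g u)‖ ≤ log⁺ ‖ι (g (σ u)) - ι (g u)‖ :=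
      le_max_right _ _
    have h6 := posLog_norm_add_le (ι (g (σ u))) (-(ι (g u)))
    rw [norm_neg, ← sub_eq_add_neg] at h6
    linarith
  have h3 := Finset.sum_le_sum (fun g (_ : g ∈ (Finset.univ : Finset (L ≃ₐ[ℚ] L))) => h2 g)
  rw [Finset.sum_add_distrib, Finset.sum_add_distrib, Finset.sum_const, Finset.card_univ,
    nsmul_eq_mul] at h3
  have h4 : ∑ g : (L ≃ₐ[ℚ] L), log⁺ ‖ι (g (σ u))‖ = size ι u := size_conj ι u σ
  have h5 : ∑ g : (L ≃ₐ[ℚ] L), log⁺ ‖ι (g u)‖ = size ι u := rfl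
  rw [h4, h5] at h3
  have hC : (0 : ℝ) < Fintype.card (L ≃ₐ[ℚ] L) := by
    have : 0 < Fintype.card (L ≃ₐ[ℚ] L) := Fintype.card_pos
    exact_mod_cast this
  have h6 : Real.log 2 - Real.log 3 < -(4 / 10) := by
    have h7 : Real.log (3 / 2) = Real.log 3 - Real.log 2 := Real.log_div (by norm_num) (by norm_num)
    have h8 : (4 / 10 : ℝ) < Real.log (3 / 2) := by
      rw [Real.lt_log_iff_exp_lt (by norm_num)]
      have := Real.exp_one_lt_d9
      have h9 : Real.exp (4 / 10) ^ 5 < (3 / 2 : ℝ) ^ 5 := by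
        rw [← Real.exp_nat_mul]
        norm_num
        have : Real.exp 2 = Real.exp 1 ^ 2 := by rw [← Real.exp_nat_mul]; norm_num
        rw [this]
        nlinarith [Real.exp_pos 1]
      exact lt_of_pow_lt_pow_left₀ 5 (by norm_num) h9
    linarith
  nlinarith

theorem all_zero : ∀ (k : ℕ) (x : ℕ → L), (∀ t, IsIntegral ℤ (x t)) →
    (∀ t (γ : L), IsIntegral ℤ γ → x t = 3 * γ → x t = 0) →
    ∑ t ∈ Finset.range k, 3 ^ t * x t = 0 → ∀ t < k, x t = 0 := by
  intro k
  induction k with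
  | zero => intro x _ _ _ t ht; omega
  | succ k ih =>
    intro x hx hP hsum t ht
    rw [Finset.sum_range_succ'] at hsum
    have hint : IsIntegral ℤ (∑ t ∈ Finset.range k, (3 : L) ^ t * x (t + 1)) := by
      apply IsIntegral.sum
      intro i _
      apply IsIntegral.mul _ (hx _)
      apply IsIntegral.pow
      exact isIntegral_algebraMap (R := ℤ) (A := L) (x := 3) |> fun h => by simpa using h
    have h1 : x 0 = 3 * (-(∑ t ∈ Finset.range k, (3 : L) ^ t * x (t + 1))) := by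
      have h2 : ∑ t ∈ Finset.range k, (3 : L) ^ (t + 1) * x (t + 1) =
          3 * ∑ t ∈ Finset.range k, (3 : L) ^ t * x (t + 1) := by
        rw [Finset.mul_sum]
        apply Finset.sum_congr rfl
        intro i _
        ring
      rw [h2, pow_zero, one_mul] at hsum
      linear_combination hsum
    have h0 : x 0 = 0 := hP 0 _ hint.neg h1
    have h3 : ∑ t ∈ Finset.range k, (3 : L) ^ t * x (t + 1) = 0 := by
      rw [h0] at h1
      have : CharZero L := algebraRat.charZero L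
      have h4 : (3 : L) ≠ 0 := by norm_num
      have := mul_eq_zero.mp h1.symm
      rcases this with h5 | h5
      · exact absurd h5 h4
      · exact neg_eq_zero.mp h5
    rcases t with _ | t
    · exact h0
    · exact ih (fun t => x (t + 1)) (fun t => hx _) (fun t => hP _) h3 t (by omega)

end field

end H28.Gal
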