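import Pool.Agent.H28.Gal.Elem

set_option autoImplicit false

namespace H28.Gal

open Finset Polynomial Real

variable {L : Type*} [Field L] [Algebra ℚ L] [FiniteDimensional ℚ L] [IsGalois ℚ L]

theorem adjoin_top (α : L) (h : ∀ σ : L ≃ₐ[ℚ] L, σ α = α → σ = 1) :
    IntermediateField.adjoin ℚ {α} = ⊤ := by
  have h1 : IntermediateField.fixingSubgroup (IntermediateField.adjoin ℚ {α}) = ⊥ := by
    rw [eq_bot_iff]
    intro σ hσ
    rw [Subgroup.mem_bot]
    apply h
    rw [IntermediateField.mem_fixingSubgroup_iff] at hσ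
    exact hσ α (IntermediateField.mem_adjoin_simple_self ℚ α)
  have h2 := IsGalois.fixedField_fixingSubgroup (IntermediateField.adjoin ℚ {α})
  rw [h1] at h2
  rw [← h2]
  exact IntermediateField.fixedField_bot

theorem final (ι : L →ₐ[ℚ] ℂ) (α : L) (hα : IsIntegral ℤ α)
    (h : ∀ σ : L ≃ₐ[ℚ] L, σ α = α → σ = 1) (C : ℝ)
    (hC : size ι α ≤ (Fintype.card (L ≃ₐ[ℚ] L) : ℝ) * C) :
    ∃ p : Polynomial ℤ, Irreducible p ∧ Polynomial.aeval (ι α) p = 0 ∧
      IsGalois ℚ (IntermediateField.adjoin ℚ ({ι α} : Set ℂ)) ∧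
      Nonempty (((IntermediateField.adjoin ℚ ({ι α} : Set ℂ)) ≃ₐ[ℚ]
          (IntermediateField.adjoin ℚ ({ι α} : Set ℂ))) ≃* (L ≃ₐ[ℚ] L)) ∧
      Real.log (Polynomial.mahlerMeasure (p.map (Int.castRingHom ℂ))) / (p.natDegree : ℝ) ≤ C := by
  have htop := adjoin_top α h
  have hint : IsIntegral ℤ (ι α) := hα.map ι
  -- the field
  have hfield : IntermediateField.adjoin ℚ ({ι α} : Set ℂ) = ι.fieldRange := by
    have h1 := IntermediateField.adjoin_map ℚ ({α} : Set L) ι
    rw [Set.image_singleton] at h1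
    rw [← h1, htop, ← AlgHom.fieldRange_eq_map]
  have e : L ≃ₐ[ℚ] (IntermediateField.adjoin ℚ ({ι α} : Set ℂ)) :=
    (AlgEquiv.ofInjectiveField ι).trans (IntermediateField.equivOfEq hfield.symm)
  refine ⟨minpoly ℤ (ι α), minpoly.irreducible hint, minpoly.aeval _ _, ?_, ?_, ?_⟩
  · exact IsGalois.of_algEquiv e
  · exact ⟨(AlgEquiv.autCongr e).symm⟩
  · -- the degree
    have hdeg : (minpoly ℤ (ι α)).natDegree = Fintype.card (L ≃ₐ[ℚ] L) := by
      have h1 : minpoly ℚ (ι α) = (minpoly ℤ (ι α)).map (algebraMap ℤ ℚ) :=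
        minpoly.isIntegrallyClosed_eq_field_fractions' ℚ hint
      have h2 : (minpoly ℚ (ι α)).natDegree = (minpoly ℤ (ι α)).natDegree := by
        rw [h1, Polynomial.Monic.natDegree_map (minpoly.monic hint)]
      have h3 : minpoly ℚ (ι α) = minpoly ℚ α := minpoly.algHom_eq ι ι.injective α
      rw [← h2, h3, ← IntermediateField.adjoin.finrank (IsIntegral.of_finite ℚ α), htop,
        IntermediateField.finrank_top', ← Nat.card_eq_fintype_card,
        IsGalois.card_aut_eq_finrank]
    set q : Polynomial ℂ := (minpoly ℤ (ι α)).map (Int.castRingHom ℂ) with hq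
    have hqmonic : q.Monic := (minpoly.monic hint).map _
    have hqdeg : q.natDegree = Fintype.card (L ≃ₐ[ℚ] L) := by
      rw [hq, (minpoly.monic hint).natDegree_map, hdeg]
    -- the roots
    set s : Multiset ℂ := (Finset.univ : Finset (L ≃ₐ[ℚ] L)).val.map (fun g => ι (g α)) with hs
    have hsnodup : s.Nodup := by
      apply Multiset.Nodup.map _ Finset.univ.nodup
      intro g g' hgg
      have h1 : g α = g' α := ι.injective hgg
      have h2 : (g'⁻¹ * g) α = α := by
        rw [AlgEquiv.mul_apply, h1, ← AlgEquiv.mul_apply, inv_mul_cancel, AlgEquiv.one_apply]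
      have h3 := h _ h2
      rw [inv_mul_eq_one] at h3
      exact h3.symm
    have hsub : s ≤ q.roots := by
      rw [Multiset.le_iff_subset hsnodup]
      intro z hz
      rw [hs, Multiset.mem_map] at hz
      obtain ⟨g, _, rfl⟩ := hz
      rw [Polynomial.mem_roots hqmonic.ne_zero, Polynomial.IsRoot.def, hq]
      have h1 : Polynomial.aeval (ι (g α)) (minpoly ℤ (ι α)) = 0 := by
        have h2 : minpoly ℤ (ι α) = minpoly ℤ α :=
          minpoly.algHom_eq (ι.restrictScalars ℤ) ι.injective α
        rw [h2]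
        have h3 := Polynomial.aeval_algHom_apply ((ι.comp (g : L →ₐ[ℚ] L)).restrictScalars ℤ) α (minpoly ℤ α)
        rw [minpoly.aeval, map_zero] at h3
        exact h3
      rw [Polynomial.eval_map]
      exact h1
    have hcards : s.card = Fintype.card (L ≃ₐ[ℚ] L) := by
      rw [hs, Multiset.card_map]
      rfl
    have hroots : s = q.roots := by
      apply Multiset.eq_of_le_of_card_le hsub
      rw [hcards, ← hqdeg]
      exact Polynomial.card_roots' q
    have hM : Real.log (Polynomial.mahlerMeasure q) = size ι α := by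
      rw [← logMahlerMeasure_eq_log_MahlerMeasure,
        logMahlerMeasure_eq_log_leadingCoeff_add_sum_log_roots, hqmonic.leadingCoeff, norm_one,
        Real.log_one, zero_add, ← hroots, hs, Multiset.map_map]
      rfl
    rw [hM, hdeg]
    have hpos : (0 : ℝ) < Fintype.card (L ≃ₐ[ℚ] L) := by
      have : 0 < Fintype.card (L ≃ₐ[ℚ] L) := Fintype.card_pos
      exact_mod_cast this
    rw [div_le_iff₀ hpos]
    linarith

end H28.Gal
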