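import Pool.Agent.H28.Gal.Collide

set_option autoImplicit false

namespace H28.Gal

open Polynomial NumberField

theorem selZ_map (n : ℕ) {S : Type*} [CommRing S] (φ : ℤ →+* S) :
    (selZ n).map φ = X ^ n - X - 1 := by
  simp [selZ]

theorem selZ_monic (n : ℕ) (hn : 2 ≤ n) : (selZ n).Monic := by
  have : selZ n = X ^ n - (X + 1) := by rw [selZ]; ring
  rw [this]
  apply Polynomial.monic_X_pow_sub
  have : (X + 1 : ℤ[X]).degree = 1 := by
    have := Polynomial.degree_X_add_C (1 : ℤ)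
    simpa using this
  rw [this]
  exact_mod_cast (by omega : 1 < n)

theorem selZ_natDegree (n : ℕ) (hn : 2 ≤ n) : (selZ n).natDegree = n := by
  have : selZ n = X ^ n - (X + 1) := by rw [selZ]; ring
  rw [this]
  have hd : (X + 1 : ℤ[X]).degree = 1 := by
    have := Polynomial.degree_X_add_C (1 : ℤ)
    simpa using this
  apply Polynomial.natDegree_eq_of_degree_eq_some
  rw [Polynomial.degree_sub_eq_left_of_degree_lt]
  · exact Polynomial.degree_X_pow n
  · rw [Polynomial.degree_X_pow, hd]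
    exact_mod_cast (by omega : 1 < n)

variable (n : ℕ) (L : Type*) [Field L] [NumberField L]
  [hsf : IsSplittingField ℚ L (X ^ n - X - 1 : ℚ[X])]

include hsf in
theorem splits_L : ((selZ n).map (algebraMap ℤ L)).Splits := by
  have h := hsf.splits'
  have : ((X ^ n - X - 1 : ℚ[X]).map (algebraMap ℚ L)) = (selZ n).map (algebraMap ℤ L) := by
    rw [selZ_map]; simp
  rwa [this] at h

include hsf in
theorem splits_O (hn : 2 ≤ n) : ((selZ n).map (algebraMap ℤ (𝓞 L))).Splits := by
  have h := splits_L n L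
  have hmap : ((selZ n).map (algebraMap ℤ (𝓞 L))).map (algebraMap (𝓞 L) L) =
      (selZ n).map (algebraMap ℤ L) := by
    rw [Polynomial.map_map]
    congr 1
  apply Polynomial.Splits.of_splits_map_of_injective (i := algebraMap (𝓞 L) L)
    (RingOfIntegers.coe_injective)
  · rw [hmap]; exact h
  · intro a ha
    rw [hmap, Polynomial.mem_roots ((selZ_monic n hn).map _).ne_zero] at ha
    have hint : IsIntegral ℤ a := by
      refine ⟨selZ n, selZ_monic n hn, ?_⟩
      rw [← Polynomial.eval_map]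
      exact ha
    exact ⟨⟨a, hint⟩, rfl⟩

include hsf in
theorem ncard_O (hn : 2 ≤ n) : ((selZ n).rootSet (𝓞 L)).ncard = n := by
  classical
  have h := splits_O n L hn
  have hirr : Irreducible (X ^ n - X - 1 : ℚ[X]) := X_pow_sub_X_sub_one_irreducible_rat (by omega)
  have hsepQ : (X ^ n - X - 1 : ℚ[X]).Separable := hirr.separable
  have hsepL : ((selZ n).map (algebraMap ℤ L)).Separable := by
    have := hsepQ.map (f := algebraMap ℚ L)
    have h2 : ((X ^ n - X - 1 : ℚ[X]).map (algebraMap ℚ L)) = (selZ n).map (algebraMap ℤ L) := by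
      rw [selZ_map]; simp
    rwa [h2] at this
  have hmap : ((selZ n).map (algebraMap ℤ (𝓞 L))).map (algebraMap (𝓞 L) L) =
      (selZ n).map (algebraMap ℤ L) := by
    rw [Polynomial.map_map]
    congr 1
  have hroots := h.roots_map_of_injective (i := algebraMap (𝓞 L) L) RingOfIntegers.coe_injective
  rw [hmap] at hroots
  have hnd : ((selZ n).map (algebraMap ℤ (𝓞 L))).roots.Nodup := by
    have h3 := Polynomial.nodup_roots hsepL
    rw [hroots] at h3
    exact Multiset.Nodup.of_map _ h3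
  rw [Polynomial.rootSet_def, Polynomial.aroots_def, Set.ncard_coe_finset,
    Multiset.toFinset_card_of_nodup hnd, ← h.natDegree_eq_card_roots,
    (selZ_monic n hn).natDegree_map, selZ_natDegree n hn]

instance instGalZ (K : Type*) [Field K] [NumberField K] [IsGalois ℚ K] :
    IsGaloisGroup Gal(K/ℚ) ℤ (𝓞 K) :=
  IsGaloisGroup.of_isFractionRing Gal(K/ℚ) ℤ (𝓞 K) ℚ K

theorem exists_inertia (K : Type*) [Field K] [NumberField K] [IsGalois ℚ K]
    (H : Module.finrank ℚ K ≠ 1) :
    ∃ (P : Ideal (𝓞 K)) (_ : P.IsMaximal) (g : Gal(K/ℚ)), g ∈ P.inertia Gal(K/ℚ) ∧ g ≠ 1 := by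
  obtain ⟨P, hP, hur⟩ := NumberField.exists_not_isUnramifiedAt_int (𝒪 := 𝓞 K) (K := K) H
  refine ⟨P, hP, ?_⟩
  by_contra hcon
  push Not at hcon
  apply hur
  have hbot : P.inertia Gal(K/ℚ) = ⊥ := by
    rw [eq_bot_iff]
    intro g hg
    rw [Subgroup.mem_bot]
    exact hcon g hg
  have hPbot : P ≠ ⊥ := Ideal.IsMaximal.ne_bot_of_isIntegral_int P
  have hp : P.under ℤ ≠ ⊥ := fun h => hPbot (Ideal.eq_bot_of_comap_eq_bot h)
  have hmax : (P.under ℤ).IsMaximal := Ideal.IsMaximal.under ℤ P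
  have : Finite (ℤ ⧸ P.under ℤ) := Ring.HasFiniteQuotients.finiteQuotient hp
  have h1 := Ideal.card_inertia_eq_ramificationIdxIn (G := Gal(K/ℚ)) (P.under ℤ) P
  rw [hbot, Ideal.ramificationIdxIn_eq_ramificationIdx (P.under ℤ) P Gal(K/ℚ)] at h1
  simp only [Nat.card_eq_fintype_card, Fintype.card_unique] at h1
  exact (Ideal.ramificationIdx_eq_one_iff).mp h1.symm

include hsf in
theorem isGalois_L (hn : 2 ≤ n) : IsGalois ℚ L := by
  have hirr : Irreducible (X ^ n - X - 1 : ℚ[X]) := X_pow_sub_X_sub_one_irreducible_rat (by omega)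
  exact IsGalois.of_separable_splitting_field (p := (X ^ n - X - 1 : ℚ[X])) hirr.separable

include hsf in
theorem toPerm_inj (hn : 2 ≤ n) :
    Function.Injective (MulAction.toPermHom Gal(L/ℚ) ((selZ n).rootSet (𝓞 L))) := by
  rw [injective_iff_map_eq_one]
  intro g hg
  have hmon := selZ_monic n hn
  have hfix : ∀ x ∈ (X ^ n - X - 1 : ℚ[X]).rootSet L, g x = x := by
    intro x hx
    have hroot : aeval x (selZ n) = 0 := by
      have h1 := (Polynomial.mem_rootSet.mp hx).2
      have h2 : (X ^ n - X - 1 : ℚ[X]) = (selZ n).map (algebraMap ℤ ℚ) := by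
        rw [selZ_map]
      rw [h2, Polynomial.aeval_map_algebraMap] at h1
      exact h1
    have hint : IsIntegral ℤ x := ⟨selZ n, hmon, hroot⟩
    let y : 𝓞 L := ⟨x, hint⟩
    have hy : algebraMap (𝓞 L) L y = x := rfl
    have hmem : y ∈ (selZ n).rootSet (𝓞 L) := by
      rw [Polynomial.mem_rootSet]
      refine ⟨hmon.ne_zero, ?_⟩
      apply RingOfIntegers.coe_injective
      have := Polynomial.aeval_algebraMap_apply L y (selZ n)
      rw [map_zero, ← this]
      exact hroot
    have h3 := Equiv.Perm.ext_iff.mp hg ⟨y, hmem⟩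
    have h4 : g • y = y := by
      have := congrArg Subtype.val h3
      exact this
    have h5 := congrArg (algebraMap (𝓞 L) L) h4
    rw [algebraMap.smul', hy] at h5
    exact h5
  have hadj : Algebra.adjoin ℚ ((X ^ n - X - 1 : ℚ[X]).rootSet L) = ⊤ := hsf.adjoin_rootSet'
  have heq : (g : L →ₐ[ℚ] L) = AlgHom.id ℚ L :=
    AlgHom.ext_of_adjoin_eq_top hadj (fun x hx => hfix x hx)
  ext x
  exact DFunLike.congr_fun heq x

include hsf in
theorem n_dvd_card (hn : n.Prime) : n ∣ Nat.card Gal(L/ℚ) := by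
  have hn2 : 2 ≤ n := hn.two_le
  have hirr : Irreducible (X ^ n - X - 1 : ℚ[X]) := X_pow_sub_X_sub_one_irreducible_rat (by omega)
  have hdeg : (X ^ n - X - 1 : ℚ[X]).natDegree = n := by
    have h2 : (X ^ n - X - 1 : ℚ[X]) = (selZ n).map (algebraMap ℤ ℚ) := by
      rw [selZ_map]
    rw [h2, (selZ_monic n hn2).natDegree_map, selZ_natDegree n hn2]
  have h := Polynomial.Gal.prime_degree_dvd_card hirr (by rw [hdeg]; exact hn)
  rw [hdeg] at h
  have e : (X ^ n - X - 1 : ℚ[X]).Gal ≃* Gal(L/ℚ) :=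
    AlgEquiv.autCongr (IsSplittingField.algEquiv L (X ^ n - X - 1 : ℚ[X])).symm
  rwa [Nat.card_congr e.toEquiv] at h

include hsf in
theorem toPerm_bij (hn : n.Prime) (h3 : 3 ≤ n) :
    Function.Bijective (MulAction.toPermHom Gal(L/ℚ) ((selZ n).rootSet (𝓞 L))) := by
  classical
  have hn2 : 2 ≤ n := hn.two_le
  have hgal := isGalois_L n L hn2
  have hinj := toPerm_inj n L hn2
  refine ⟨hinj, ?_⟩
  have hdvd := n_dvd_card n L hn
  have hfin : Module.finrank ℚ L ≠ 1 := by
    rw [← IsGalois.card_aut_eq_finrank]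
    intro h
    rw [h, Nat.dvd_one] at hdvd
    omega
  obtain ⟨P, hP, g, hgP, hg1⟩ := exists_inertia L hfin
  have hdom : IsDomain (𝓞 L ⧸ P) := Ideal.Quotient.isDomain P
  have hsplit := splits_O n L hn2
  have hcard : ((selZ n).rootSet (𝓞 L)).ncard ≤ ((selZ n).rootSet (𝓞 L ⧸ P)).ncard + 1 := by
    rw [ncard_O n L hn2]
    refine selmer_card_roots (k := 𝓞 L ⧸ P) n h3 ?_
    have := hsplit.map (Ideal.Quotient.mk P)
    have hcomp : (Ideal.Quotient.mk P).comp (algebraMap ℤ (𝓞 L)) = algebraMap ℤ (𝓞 L ⧸ P) :=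
      RingHom.ext_int _ _
    rw [Polynomial.map_map, hcomp] at this
    exact this
  have hsw := Polynomial.Splits.toPermHom_apply_eq_one_or_isSwap_of_ncard_le_of_mem_inertia
    hsplit P hcard g hgP
  have hswap : (MulAction.toPermHom Gal(L/ℚ) ((selZ n).rootSet (𝓞 L)) g).IsSwap := by
    rcases hsw with h | h
    · exfalso
      apply hg1
      exact hinj (by rw [h, map_one])
    · exact h
  rw [← MonoidHom.range_eq_top]
  have hcR : Fintype.card ((selZ n).rootSet (𝓞 L)) = n := by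
    rw [← Nat.card_eq_fintype_card, Nat.card_coe_set_eq, ncard_O n L hn2]
  apply Equiv.Perm.subgroup_eq_top_of_swap_mem (τ := MulAction.toPermHom Gal(L/ℚ) ((selZ n).rootSet (𝓞 L)) g)
  · rw [hcR]; exact hn
  · rw [hcR, Fintype.card_eq_nat_card]
    rwa [← Nat.card_congr (MonoidHom.ofInjective hinj).toEquiv]
  · exact ⟨g, rfl⟩
  · exact hswap

end H28.Gal
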