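import Pool.Agent.H28.Gal.Final
import Pool.Agent.H28.Gal.Selmer

set_option autoImplicit false

namespace H28.Gal

open Polynomial NumberField Real

theorem digits_inj (m : ℕ) : ∀ (k x y : ℕ), (∀ t < k, x / m ^ t % m = y / m ^ t % m) →
    x % m ^ k = y % m ^ k := by
  intro k
  induction k with
  | zero => intro x y _; simp [Nat.mod_one]
  | succ k ih =>
    intro x y h
    rw [Nat.mod_pow_succ, Nat.mod_pow_succ, ih x y (fun t ht => h t (by omega)), h k (by omega)]

section one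

variable (n : ℕ) (L : Type*) [Field L] [NumberField L]
  [hsf : IsSplittingField ℚ L (X ^ n - X - 1 : ℚ[X])]

/-- the root as an element of the field -/
noncomputable def bet (r : (selZ n).rootSet (𝓞 L)) : L := algebraMap (𝓞 L) L (r : 𝓞 L)

theorem root_eq' {S : Type*} [CommRing S] [Algebra ℤ S] (x : S) (h : aeval x (selZ n) = 0) :
    x ^ n = x + 1 := by
  rw [selZ] at h
  simp only [map_sub, map_pow, aeval_X, map_one] at h
  linear_combination h

theorem root_eq (r : (selZ n).rootSet (𝓞 L)) :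
    (r : 𝓞 L) ^ n = (r : 𝓞 L) + 1 :=
  root_eq' n _ (Polynomial.mem_rootSet.mp r.2).2

theorem bet_eq (r : (selZ n).rootSet (𝓞 L)) :
    (bet n L r) ^ n = bet n L r + 1 := by
  unfold bet
  rw [← map_pow, root_eq n L r, map_add, map_one]

include hsf in
theorem prod_roots (hn : 2 ≤ n) (ι : L →ₐ[ℚ] ℂ) :
    ∏ r : (selZ n).rootSet (𝓞 L), ‖ι (bet n L r)‖ = 1 := by
  classical
  have hs := splits_O n L hn
  have hmon : ((selZ n).map (algebraMap ℤ (𝓞 L))).Monic := (selZ_monic n hn).map _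
  have h := hs.coeff_zero_eq_prod_roots_of_monic hmon
  have hcard := ncard_O n L hn
  have hnd : ((selZ n).map (algebraMap ℤ (𝓞 L))).roots.Nodup := by
    have h1 : ((selZ n).map (algebraMap ℤ (𝓞 L))).roots.toFinset.card =
        ((selZ n).map (algebraMap ℤ (𝓞 L))).roots.card := by
      rw [← hs.natDegree_eq_card_roots, (selZ_monic n hn).natDegree_map, selZ_natDegree n hn]
      rw [Polynomial.rootSet_def, Polynomial.aroots_def, Set.ncard_coe_finset] at hcard
      exact hcard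
    exact Multiset.toFinset_card_eq_card_iff_nodup.mp h1
  have hprod : ((selZ n).map (algebraMap ℤ (𝓞 L))).roots.prod =
      ∏ r : (selZ n).rootSet (𝓞 L), (r : 𝓞 L) := by
    have h1 : ((selZ n).map (algebraMap ℤ (𝓞 L))).roots =
        ((selZ n).map (algebraMap ℤ (𝓞 L))).roots.toFinset.val := by
      rw [Multiset.toFinset_val, Multiset.dedup_eq_self.mpr hnd]
    rw [h1, Finset.prod_val]
    have h2 : ((selZ n).map (algebraMap ℤ (𝓞 L))).roots.toFinset =
        ((selZ n).rootSet (𝓞 L)).toFinset := by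
      ext x
      simp [Polynomial.rootSet_def, Polynomial.aroots_def]
    rw [h2]
    exact (Finset.prod_set_coe (f := fun x : 𝓞 L => x) ((selZ n).rootSet (𝓞 L))).symm
  rw [hprod] at h
  have hc : ((selZ n).map (algebraMap ℤ (𝓞 L))).coeff 0 = -1 := by
    rw [Polynomial.coeff_map, selZ]
    simp [Polynomial.coeff_X_pow, show (0 : ℕ) ≠ n by omega]
  rw [hc] at h
  have h3 := congrArg (fun x : 𝓞 L => ‖ι (algebraMap (𝓞 L) L x)‖) h
  simp only [map_mul, map_pow, map_neg, map_one, map_prod, norm_mul, norm_pow, norm_neg, norm_one,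
    one_pow, one_mul, norm_prod] at h3
  exact h3.symm

include hsf in
theorem exists_big (hn : 2 ≤ n) (ι : L →ₐ[ℚ] ℂ) :
    ∃ r : (selZ n).rootSet (𝓞 L), 0 < Real.log ‖ι (bet n L r)‖ := by
  obtain ⟨x, hx1, hx⟩ := exists_real_root n hn
  have hs := splits_O n L hn
  have hmon : ((selZ n).map (algebraMap ℤ (𝓞 L))).Monic := (selZ_monic n hn).map _
  have h := hs.eq_prod_roots_of_monic hmon
  set φ : 𝓞 L →+* ℂ := (ι : L →+* ℂ).comp (algebraMap (𝓞 L) L) with hφ
  have h1 : ((selZ n).map (algebraMap ℤ (𝓞 L))).map φ = X ^ n - X - 1 := by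
    rw [Polynomial.map_map, selZ_map]
  have h2 := congrArg (fun q : (𝓞 L)[X] => (q.map φ).eval (x : ℂ)) h
  simp only [h1] at h2
  have h3 : eval (x : ℂ) (X ^ n - X - 1 : ℂ[X]) = 0 := by
    simp only [eval_sub, eval_pow, eval_X, eval_one]
    have : ((x ^ n : ℝ) : ℂ) = ((x + 1 : ℝ) : ℂ) := by rw [hx]
    push_cast at this
    rw [this]; ring
  rw [h3, Polynomial.map_multiset_prod, Multiset.map_map, Polynomial.eval_multiset_prod,
    Multiset.map_map] at h2
  have h4 := Multiset.prod_eq_zero_iff.mp h2.symm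
  rw [Multiset.mem_map] at h4
  obtain ⟨r, hr, hr0⟩ := h4
  simp only [Function.comp, Polynomial.map_sub, Polynomial.map_X, Polynomial.map_C, eval_sub,
    eval_X, eval_C] at hr0
  have hmem : r ∈ (selZ n).rootSet (𝓞 L) := by
    rw [Polynomial.mem_rootSet]
    refine ⟨(selZ_monic n hn).ne_zero, ?_⟩
    have := (Polynomial.mem_roots hmon.ne_zero).mp hr
    rw [Polynomial.IsRoot.def, Polynomial.eval_map] at this
    exact this
  refine ⟨⟨r, hmem⟩, ?_⟩
  have h5 : ι (bet n L ⟨r, hmem⟩) = (x : ℂ) := (sub_eq_zero.mp hr0).symm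
  rw [h5, Complex.norm_real, Real.norm_of_nonneg (by linarith)]
  exact Real.log_pos hx1

include hsf in
theorem mkData (hn : n.Prime) (h3 : 3 ≤ n) (ι : L →ₐ[ℚ] ℂ) (m : ℕ) (hm : 1200 ≤ m)
    (hmn : m ^ 6 ≤ 2 * n) [DecidableEq ((selZ n).rootSet (𝓞 L))] :
    Data ι (bet n L) (MulEquiv.ofBijective _ (toPerm_bij n L hn h3)) m := by
  have hn2 : 2 ≤ n := hn.two_le
  have hcard : Fintype.card ((selZ n).rootSet (𝓞 L)) = n := by
    rw [← Nat.card_eq_fintype_card, Nat.card_coe_set_eq, ncard_O n L hn2]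
  have hz : ∀ r, (ι (bet n L r)) ^ n = ι (bet n L r) + 1 := by
    intro r
    rw [← map_pow, bet_eq, map_add, map_one]
  have hne0 : ∀ r, bet n L r ≠ 0 := by
    intro r h
    have := bet_eq n L r
    rw [h, zero_pow (by omega), zero_add] at this
    exact zero_ne_one this
  have hl : ∑ r, Real.log ‖ι (bet n L r)‖ = 0 := by
    rw [← Real.log_prod]
    · rw [prod_roots n L hn2 ι, Real.log_one]
    · intro r _
      simpa using hne0 r
  refine ⟨?_, hne0, ?_, hl, ?_, ?_, ?_, hm, ?_⟩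
  · intro g r
    unfold bet
    rw [MulEquiv.ofBijective_apply, MulAction.toPermHom_apply, MulAction.toPerm_apply,
      Polynomial.rootSet.coe_smul, algebraMap.smul']
    rfl
  · intro r
    exact RingOfIntegers.isIntegral_coe _
  · intro r
    rw [hcard]
    exact root_log_sq n hn2 _ (hz r)
  · intro r
    rw [hcard]
    exact root_log_le n hn2 _ (hz r)
  · obtain ⟨p, hp⟩ := exists_big n L hn2 ι
    by_contra hcon
    push Not at hcon
    have h1 : ∑ r, Real.log ‖ι (bet n L r)‖ = ∑ r : (selZ n).rootSet (𝓞 L), Real.log ‖ι (bet n L p)‖ :=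
      Finset.sum_congr rfl (fun r _ => hcon r p)
    rw [hl, Finset.sum_const, Finset.card_univ, hcard, nsmul_eq_mul] at h1
    have h2 : (0 : ℝ) < n := by exact_mod_cast (by omega : 0 < n)
    have := mul_pos h2 hp
    linarith
  · rw [hcard]; exact hmn

end one

theorem main_field (n : ℕ) (hn : n.Prime) (h3 : 3 ≤ n) (m : ℕ) (hm : 1200 ≤ m)
    (hmn : m ^ 6 ≤ 2 * n) (hnm : n ≤ m ^ 6) (L : Type) [Field L] [NumberField L]
    [hsf : IsSplittingField ℚ L (X ^ n - X - 1 : ℚ[X])] :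
    ∃ α : ℂ, ∃ p : Polynomial ℤ, Irreducible p ∧ Polynomial.aeval α p = 0 ∧
      IsGalois ℚ (IntermediateField.adjoin ℚ ({α} : Set ℂ)) ∧
      Nonempty (((IntermediateField.adjoin ℚ ({α} : Set ℂ)) ≃ₐ[ℚ]
          (IntermediateField.adjoin ℚ ({α} : Set ℂ))) ≃* Equiv.Perm (Fin n)) ∧
      Real.log (Polynomial.mahlerMeasure (p.map (Int.castRingHom ℂ))) / (p.natDegree : ℝ) ≤
        Real.log 6 + 15 * Real.log 3 + 1 := by
  classical
  have hn2 : 2 ≤ n := hn.two_le
  have hgal : IsGalois ℚ L := isGalois_L n L hn2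
  let ι : L →ₐ[ℚ] ℂ := IsAlgClosed.lift
  have D := mkData n L hn h3 ι m hm hmn
  have hcard : Fintype.card ((selZ n).rootSet (𝓞 L)) = n := by
    rw [← Nat.card_eq_fintype_card, Nat.card_coe_set_eq, ncard_O n L hn2]
  let e : (selZ n).rootSet (𝓞 L) ≃ Fin n := Fintype.equivFinOfCardEq hcard
  let a : ℕ → (selZ n).rootSet (𝓞 L) → ℕ := fun t r => (e r : ℕ) / m ^ t % m
  have ha : ∀ t r, a t r ≤ m := fun t r => (Nat.mod_lt _ (by omega)).le
  have hinj : ∀ r s, (∀ t < 6, a t r = a t s) → r = s := by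
    intro r s h
    have h1 := digits_inj m 6 (e r) (e s) h
    rw [Nat.mod_eq_of_lt ((e r).2.trans_le hnm), Nat.mod_eq_of_lt ((e s).2.trans_le hnm)] at h1
    exact e.injective (Fin.ext h1)
  have hint : IsIntegral ℤ (elt (bet n L) a) := by
    unfold elt
    apply IsIntegral.sum
    intro i _
    apply IsIntegral.mul _ (U_int _ D.hint _)
    apply IsIntegral.pow
    exact isIntegral_algebraMap (R := ℤ) (A := L) (x := 3) |> fun h => by simpa using h
  obtain ⟨p, h1, h2, h3', ⟨e4⟩, h5⟩ := final ι (elt (bet n L) a) hint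
    (fun σ hσ => stab_elt D a ha hinj σ hσ) (Real.log 6 + 15 * Real.log 3 + 1) (size_elt D a ha)
  exact ⟨_, p, h1, h2, h3', ⟨(e4.trans (MulEquiv.ofBijective _ (toPerm_bij n L hn h3))).trans
    (Equiv.permCongrHom e)⟩, h5⟩

theorem main (n : ℕ) (hn : n.Prime) (h3 : 3 ≤ n) (m : ℕ) (hm : 1200 ≤ m)
    (hmn : m ^ 6 ≤ 2 * n) (hnm : n ≤ m ^ 6) :
    ∃ α : ℂ, ∃ p : Polynomial ℤ, Irreducible p ∧ Polynomial.aeval α p = 0 ∧
      IsGalois ℚ (IntermediateField.adjoin ℚ ({α} : Set ℂ)) ∧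
      Nonempty (((IntermediateField.adjoin ℚ ({α} : Set ℂ)) ≃ₐ[ℚ]
          (IntermediateField.adjoin ℚ ({α} : Set ℂ))) ≃* Equiv.Perm (Fin n)) ∧
      Real.log (Polynomial.mahlerMeasure (p.map (Int.castRingHom ℂ))) / (p.natDegree : ℝ) ≤
        Real.log 6 + 15 * Real.log 3 + 1 := by
  let f : ℚ[X] := X ^ n - X - 1
  let A0 : Algebra ℚ f.SplittingField := SplittingField.instAlgebra f
  have hch : CharZero f.SplittingField :=
    charZero_of_injective_algebraMap (algebraMap ℚ f.SplittingField).injective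
  have halg : (DivisionRing.toRatAlgebra : Algebra ℚ f.SplittingField) = A0 := Subsingleton.elim _ _
  have hnf : NumberField f.SplittingField := by
    refine { to_charZero := hch, to_finiteDimensional := ?_ }
    rw [halg]
    exact inferInstanceAs (FiniteDimensional ℚ f.SplittingField)
  have hsf : @IsSplittingField ℚ f.SplittingField _ _ DivisionRing.toRatAlgebra f := by
    rw [halg]
    exact IsSplittingField.splittingField f
  exact @main_field n hn h3 m hm hmn hnm f.SplittingField _ hnf hsf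

theorem exists_n (N : ℕ) : ∃ n m : ℕ, N ≤ n ∧ n.Prime ∧ 3 ≤ n ∧ 1200 ≤ m ∧ m ^ 6 ≤ 2 * n ∧
    n ≤ m ^ 6 := by
  set m := max 1200 N with hm
  have hm1 : 1200 ≤ m := le_max_left _ _
  have hm2 : N ≤ m := le_max_right _ _
  have hm6 : 1200 * m ≤ m ^ 6 := by
    calc 1200 * m ≤ m * m := Nat.mul_le_mul_right m hm1
      _ = m ^ 2 := by ring
      _ ≤ m ^ 6 := Nat.pow_le_pow_right (by omega) (by norm_num)
  obtain ⟨p, hp, hp1, hp2⟩ := Nat.exists_prime_lt_and_le_two_mul (m ^ 6 / 2) (by omega)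
  exact ⟨p, m, by omega, hp, by omega, hm1, by omega, by omega⟩

end H28.Gal
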